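import Mathlib
import Pool.Agent.V11191.Opp.Defs

/-!
# Riemannian metrics on `S²`, distances, segments, property (O)

A field `H` of linear operators on `ℝ³` gives the bilinear forms `⟪H x v, w⟫`; only their values at tangent
vectors of the unit sphere matter for lengths, distances, segments, angles.
-/

set_option autoImplicit false

open scoped RealInnerProductSpace Topology Interval
open MeasureTheory

namespace Pool.Agent.V7H34.NO

open Pool.Agent.V11191.Opp (E3 IsPath)

/-- length of a path -/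
noncomputable def len (H : E3 → E3 →L[ℝ] E3) (c : ℝ → E3) : ℝ :=
  ∫ t in (0 : ℝ)..1, Real.sqrt ⟪H (c t) (deriv c t), deriv c t⟫

/-- intrinsic distance: infimum of the lengths of the `C¹` paths on the sphere -/
noncomputable def rho (H : E3 → E3 →L[ℝ] E3) (p q : E3) : ℝ :=
  sInf {L | ∃ c, IsPath c p q ∧ L = len H c}

/-- `c` is a segment (shortest path) from `p` to `q`, parametrised on `[0,1]` proportionally to arc
length -/
structure IsSegment (H : E3 → E3 →L[ℝ] E3) (c : ℝ → E3) (p q : E3) : Prop where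
  path : IsPath c p q
  speed : ∀ t ∈ Set.Icc (0 : ℝ) 1, Real.sqrt ⟪H (c t) (deriv c t), deriv c t⟫ = rho H p q

/-- the bounds used for a metric -/
structure Bd (H : E3 → E3 →L[ℝ] E3) (κ K : ℝ) : Prop where
  smooth : ContDiff ℝ 1 H
  symm : ∀ x v w : E3, ⟪H x v, w⟫ = ⟪v, H x w⟫
  κpos : 0 < κ
  low : ∀ x v : E3, ‖x‖ = 1 → ⟪x, v⟫ = 0 → κ * ‖v‖ ^ 2 ≤ ⟪H x v, v⟫
  up : ∀ x : E3, ‖x‖ = 1 → ‖H x‖ ≤ K
  dup : ∀ x : E3, ‖x‖ = 1 → ‖fderiv ℝ H x‖ ≤ K

end Pool.Agent.V7H34.NO
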