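import Mathlib
import Pool.Agent.V7H34.NO.Defs

/-!
# Arzelà–Ascoli for `C¹` curves
-/

set_option autoImplicit false

open scoped RealInnerProductSpace Topology Interval BoundedContinuousFunction
open MeasureTheory Filter

namespace Pool.Agent.V7H34.NO

open Pool.Agent.V11191.Opp (E3 IsPath)

/-- the velocity on `[0,1]` -/
noncomputable def vel {c : ℝ → E3} (hc : ContDiff ℝ 1 c) : Set.Icc (0 : ℝ) 1 →ᵇ E3 :=
  BoundedContinuousFunction.mkOfCompact
    ⟨fun x => deriv c x, (hc.continuous_deriv le_rfl).comp continuous_subtype_val⟩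

theorem vel_apply {c : ℝ → E3} (hc : ContDiff ℝ 1 c) (x : Set.Icc (0 : ℝ) 1) :
    vel hc x = deriv c x := rfl

theorem arz (γ : ℕ → ℝ → E3) (h1 : ∀ n, ContDiff ℝ 1 (γ n)) {R V L : ℝ}
    (hR : ∀ n, ‖γ n 0‖ ≤ R) (hV : ∀ n, ∀ t ∈ Set.Icc (0 : ℝ) 1, ‖deriv (γ n) t‖ ≤ V)
    (hL : ∀ n, ∀ s ∈ Set.Icc (0 : ℝ) 1, ∀ t ∈ Set.Icc (0 : ℝ) 1,
      ‖deriv (γ n) t - deriv (γ n) s‖ ≤ L * |t - s|) :
    ∃ (s : ℕ → ℕ) (g : ℝ → E3), StrictMono s ∧ ContDiff ℝ 1 g ∧
      ∀ t ∈ Set.Icc (0 : ℝ) 1, Tendsto (fun n => γ (s n) t) atTop (𝓝 (g t)) ∧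
        Tendsto (fun n => deriv (γ (s n)) t) atTop (𝓝 (deriv g t)) := by
  set A : Set (Set.Icc (0 : ℝ) 1 →ᵇ E3) :=
    {f | (∀ x, ‖f x‖ ≤ V) ∧ ∀ x y, dist (f x) (f y) ≤ L * dist x y} with hA
  have hcomp : IsCompact (closure A) := by
    refine BoundedContinuousFunction.arzela_ascoli (Metric.closedBall (0 : E3) V)
      (isCompact_closedBall _ _) A ?_ ?_
    · intro f x hf
      rw [mem_closedBall_zero_iff]
      exact hf.1 x
    · refine Metric.equicontinuous_of_continuity_modulus (fun r => L * r) ?_ _ ?_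
      · have : Continuous fun r : ℝ => L * r := by fun_prop
        simpa using this.tendsto 0
      · intro x y f
        exact f.2.2 x y
  have hmem : ∀ n, vel (h1 n) ∈ closure A := by
    intro n
    refine subset_closure ⟨fun x => ?_, fun x y => ?_⟩
    · rw [vel_apply]
      exact hV n x x.2
    · rw [vel_apply, vel_apply, dist_eq_norm, Subtype.dist_eq, Real.dist_eq]
      exact hL n y y.2 x x.2
  obtain ⟨f, -, s1, hs1, hf⟩ := hcomp.tendsto_subseq hmem
  obtain ⟨y, -, s2, hs2, hy⟩ := (isCompact_closedBall (0 : E3) R).tendsto_subseq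
    (x := fun n => γ (s1 n) 0) (fun n => by simpa using hR (s1 n))
  set v : ℝ → E3 := fun t => f (Set.projIcc 0 1 zero_le_one t) with hv
  have hvc : Continuous v := f.continuous.comp continuous_projIcc
  set g : ℝ → E3 := fun t => y + ∫ r in (0 : ℝ)..t, v r with hg
  have hgd : ∀ t, HasDerivAt g (v t) t := fun t =>
    (intervalIntegral.integral_hasDerivAt_right (hvc.intervalIntegrable _ _)
      (hvc.stronglyMeasurableAtFilter _ _) hvc.continuousAt).const_add y
  have hgderiv : deriv g = v := funext fun t => (hgd t).deriv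
  have hg1 : ContDiff ℝ 1 g := by
    rw [contDiff_one_iff_deriv]
    exact ⟨fun t => (hgd t).differentiableAt, by rw [hgderiv]; exact hvc⟩
  have hunif : Tendsto (fun n => dist (vel (h1 (s1 (s2 n)))) f) atTop (𝓝 0) := by
    have h2 := tendsto_iff_dist_tendsto_zero.1 hf
    exact h2.comp hs2.tendsto_atTop
  have hvt : ∀ t ∈ Set.Icc (0 : ℝ) 1, ∀ n, ‖deriv (γ (s1 (s2 n))) t - v t‖ ≤
      dist (vel (h1 (s1 (s2 n)))) f := by
    intro t ht n
    have e1 : v t = f ⟨t, ht⟩ := by
      rw [hv]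
      dsimp only
      rw [Set.projIcc_of_mem zero_le_one ht]
    rw [e1, ← dist_eq_norm]
    exact BoundedContinuousFunction.dist_coe_le_dist (f := vel (h1 (s1 (s2 n)))) (g := f) ⟨t, ht⟩
  refine ⟨fun n => s1 (s2 n), g, hs1.comp hs2, hg1, fun t ht => ⟨?_, ?_⟩⟩
  · have hint : ∀ n, γ (s1 (s2 n)) t - g t = (γ (s1 (s2 n)) 0 - y) +
        ∫ r in (0 : ℝ)..t, (deriv (γ (s1 (s2 n))) r - v r) := by
      intro n
      have hdc : Continuous (deriv (γ (s1 (s2 n)))) := (h1 _).continuous_deriv le_rfl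
      rw [intervalIntegral.integral_sub (hdc.intervalIntegrable _ _)
        (hvc.intervalIntegrable _ _),
        intervalIntegral.integral_eq_sub_of_hasDerivAt
          (fun r _ => (((h1 (s1 (s2 n))).differentiable one_ne_zero) r).hasDerivAt)
          (hdc.intervalIntegrable _ _)]
      simp only [hg]
      abel
    have hb : ∀ n, ‖∫ r in (0 : ℝ)..t, (deriv (γ (s1 (s2 n))) r - v r)‖ ≤
        dist (vel (h1 (s1 (s2 n)))) f := by
      intro n
      have := intervalIntegral.norm_integral_le_of_norm_le_const (a := 0) (b := t)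
        (f := fun r => deriv (γ (s1 (s2 n))) r - v r) (C := dist (vel (h1 (s1 (s2 n)))) f)
        (fun r hr => hvt r ?_ n)
      · refine this.trans ?_
        rw [sub_zero, abs_of_nonneg ht.1]
        have h0 : 0 ≤ dist (vel (h1 (s1 (s2 n)))) f := dist_nonneg
        nlinarith [ht.2]
      · rw [Set.uIoc_of_le ht.1] at hr
        exact ⟨hr.1.le, hr.2.trans ht.2⟩
    rw [tendsto_iff_norm_sub_tendsto_zero]
    have hy' : Tendsto (fun n => ‖γ (s1 (s2 n)) 0 - y‖ + dist (vel (h1 (s1 (s2 n)))) f) atTop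
        (𝓝 0) := by
      have := (tendsto_iff_norm_sub_tendsto_zero.1 hy).add hunif
      rw [add_zero] at this
      exact this
    refine squeeze_zero (fun n => norm_nonneg _) (fun n => ?_) hy'
    rw [hint]
    exact (norm_add_le _ _).trans (add_le_add le_rfl (hb n))
  · rw [tendsto_iff_norm_sub_tendsto_zero, hgderiv]
    exact squeeze_zero (fun n => norm_nonneg _) (fun n => hvt t ht n) hunif

end Pool.Agent.V7H34.NO
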