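import Mathlib
import Pool.Agent.V7H34.NO.Defs
import Pool.Agent.V11191.Opp.EL

/-!
# Euler–Lagrange equation for a general metric
-/

set_option autoImplicit false

open scoped RealInnerProductSpace Topology Interval
open MeasureTheory

namespace Pool.Agent.V7H34.NO

open Pool.Agent.V11191.Opp (E3 IsPath rot rot_zero rot_norm Agen Agen_norm_le rot_curve
  rot_hasDerivAt deriv_param_integral Agen_apply)

theorem path_norm {c : ℝ → E3} {p q : E3} (hc : IsPath c p q) {t : ℝ}
    (ht : t ∈ Set.Icc (0 : ℝ) 1) : ‖c t‖ = 1 := by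
  have := hc.mem t ht
  rwa [mem_sphere_zero_iff_norm] at this

/-- the velocity is tangent to the sphere -/
theorem path_tangent {c : ℝ → E3} {p q : E3} (hc : IsPath c p q) {t : ℝ}
    (ht : t ∈ Set.Icc (0 : ℝ) 1) : ⟪c t, deriv c t⟫ = 0 := by
  have hγD : HasDerivAt c (deriv c t) t := ((hc.c1.differentiable one_ne_zero) t).hasDerivAt
  have hns : HasDerivAt (fun t => ‖c t‖ ^ 2) (2 * ⟪c t, deriv c t⟫) t := hγD.norm_sq
  have hw : HasDerivWithinAt (fun t => ‖c t‖ ^ 2) (2 * ⟪c t, deriv c t⟫)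
      (Set.Icc 0 1) t := hns.hasDerivWithinAt
  have hw2 : HasDerivWithinAt (fun _ : ℝ => (1 : ℝ)) (2 * ⟪c t, deriv c t⟫)
      (Set.Icc 0 1) t := by
    refine hw.congr ?_ ?_
    · intro s hs
      rw [path_norm hc hs]
      norm_num
    · rw [path_norm hc ht]
      norm_num
  have huniq : UniqueDiffWithinAt ℝ (Set.Icc (0 : ℝ) 1) t :=
    (uniqueDiffOn_Icc (by norm_num)) t ht
  have h5 := huniq.eq_deriv _ hw2 (hasDerivWithinAt_const t _ (1 : ℝ))
  linarith

variable {H : E3 → E3 →L[ℝ] E3} {κ K : ℝ}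

theorem Bd.nonneg (hH : Bd H κ K) {x v : E3} (hx : ‖x‖ = 1) (hv : ⟪x, v⟫ = 0) :
    0 ≤ ⟪H x v, v⟫ :=
  (mul_nonneg hH.κpos.le (sq_nonneg _)).trans (hH.low x v hx hv)

theorem Bd.K_nonneg (hH : Bd H κ K) : 0 ≤ K := by
  have h1 : ‖(EuclideanSpace.single (0 : Fin 3) (1 : ℝ) : E3)‖ = 1 := by simp
  exact (norm_nonneg _).trans (hH.up _ h1)

theorem len_nonneg (H : E3 → E3 →L[ℝ] E3) (c : ℝ → E3) : 0 ≤ len H c :=
  intervalIntegral.integral_nonneg (by norm_num) fun _ _ => Real.sqrt_nonneg _

theorem rho_le {c : ℝ → E3} {p q : E3} (hc : IsPath c p q) : rho H p q ≤ len H c := by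
  refine csInf_le ⟨0, ?_⟩ ⟨c, hc, rfl⟩
  rintro L ⟨c', _, rfl⟩
  exact len_nonneg _ _

theorem rho_nonneg (H : E3 → E3 →L[ℝ] E3) (p q : E3) : 0 ≤ rho H p q :=
  Real.sInf_nonneg (by rintro L ⟨c', _, rfl⟩; exact len_nonneg _ _)

theorem cont_speed (hH : Continuous H) {c : ℝ → E3} (hc : ContDiff ℝ 1 c) :
    Continuous fun t => ⟪H (c t) (deriv c t), deriv c t⟫ := by
  have hd : Continuous (deriv c) := hc.continuous_deriv le_rfl
  have hcc : Continuous c := hc.continuous
  exact ((hH.comp hcc).clm_apply hd).inner hd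

/-- energy is at least the square of the distance -/
theorem energy_ge (hH : Bd H κ K) {c : ℝ → E3} {p q : E3} (hc : IsPath c p q) :
    rho H p q ^ 2 ≤ ∫ t in (0 : ℝ)..1, ⟪H (c t) (deriv c t), deriv c t⟫ := by
  have hHc : Continuous H := hH.smooth.continuous
  have hf : Continuous fun t => Real.sqrt ⟪H (c t) (deriv c t), deriv c t⟫ :=
    (cont_speed hHc hc.c1).sqrt
  set d := rho H p q with hdd
  set f : ℝ → ℝ := fun t => Real.sqrt ⟪H (c t) (deriv c t), deriv c t⟫ with hfd
  have h0 : 0 ≤ d := rho_nonneg _ _ _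
  have h1 : d ≤ ∫ t in (0 : ℝ)..1, f t := rho_le hc
  have h2 : 0 ≤ ∫ t in (0 : ℝ)..1, (f t - d) ^ 2 :=
    intervalIntegral.integral_nonneg (by norm_num) fun _ _ => sq_nonneg _
  have h3 : (∫ t in (0 : ℝ)..1, (f t - d) ^ 2) = (∫ t in (0 : ℝ)..1, f t ^ 2) -
        2 * d * (∫ t in (0 : ℝ)..1, f t) + d ^ 2 := by
    have e1 : ∀ t, (f t - d) ^ 2 = f t ^ 2 - 2 * d * f t + d ^ 2 := fun t => by ring
    simp only [e1]
    rw [intervalIntegral.integral_add, intervalIntegral.integral_sub,
      intervalIntegral.integral_const_mul]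
    · simp
    · exact (hf.pow 2).intervalIntegrable _ _
    · exact (continuous_const.mul hf).intervalIntegrable _ _
    · exact ((hf.pow 2).sub (continuous_const.mul hf)).intervalIntegrable _ _
    · exact intervalIntegrable_const
  have h4 : (∫ t in (0 : ℝ)..1, f t ^ 2) = ∫ t in (0 : ℝ)..1, ⟪H (c t) (deriv c t), deriv c t⟫ := by
    refine intervalIntegral.integral_congr fun t ht => ?_
    rw [Set.uIcc_of_le (by norm_num)] at ht
    simp only [hfd]
    rw [Real.sq_sqrt (hH.nonneg (path_norm hc ht) (path_tangent hc ht))]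
  rw [h3, h4] at h2
  nlinarith

/-- The Euler–Lagrange equation, weak form. -/
theorem weak_el (hH : Bd H κ K) {γ : ℝ → E3} {p q : E3} (hγ : IsSegment H γ p q)
    {a b : E3} (ha : ‖a‖ = 1) (hb : ‖b‖ = 1) (hab : ⟪a, b⟫ = 0)
    {ψ : ℝ → ℝ} (hψ : ContDiff ℝ 1 ψ) (h0 : ψ 0 = 0) (h1 : ψ 1 = 0) :
    ∫ t in (0 : ℝ)..1, (ψ t * (⟪fderiv ℝ H (γ t) (Agen a b (γ t)) (deriv γ t), deriv γ t⟫ +
      2 * ⟪H (γ t) (deriv γ t), Agen a b (deriv γ t)⟫) +
      deriv ψ t * (2 * ⟪H (γ t) (deriv γ t), Agen a b (γ t)⟫)) = 0 := by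
  have hγ1 := hγ.path.c1
  have hγc : Continuous γ := hγ1.continuous
  have hγd : Continuous (deriv γ) := hγ1.continuous_deriv le_rfl
  have hψc : Continuous ψ := hψ.continuous
  have hψd : Continuous (deriv ψ) := hψ.continuous_deriv le_rfl
  have hHc : Continuous H := hH.smooth.continuous
  have hHd : Continuous (fderiv ℝ H) := hH.smooth.continuous_fderiv one_ne_zero
  have hAc : Continuous (fun p : E3 => Agen a b p) := (Agen a b).continuous
  -- the curves, their velocities, and the derivatives in `s`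
  set cc : ℝ → ℝ → E3 := fun s t => rot a b (s * ψ t) (γ t) with hcc
  set cc' : ℝ → ℝ → E3 := fun s t => rot a b (s * ψ t) (0 + ψ t • Agen a b (γ t)) with hcc'
  set w : ℝ → ℝ → E3 := fun s t =>
    rot a b (s * ψ t) (deriv γ t + (s * deriv ψ t) • Agen a b (γ t)) with hw
  set w' : ℝ → ℝ → E3 := fun s t => rot a b (s * ψ t) (deriv ψ t • Agen a b (γ t) +
    ψ t • Agen a b (deriv γ t + (s * deriv ψ t) • Agen a b (γ t))) with hw'
  set F : ℝ → ℝ → ℝ := fun s t => ⟪H (cc s t) (w s t), w s t⟫ with hF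
  set F' : ℝ → ℝ → ℝ := fun s t => ⟪H (cc s t) (w s t), w' s t⟫ +
    ⟪fderiv ℝ H (cc s t) (cc' s t) (w s t) + H (cc s t) (w' s t), w s t⟫ with hF'
  have c1 : Continuous (fun x : ℝ × ℝ => cc x.1 x.2) := by
    simp only [hcc]
    unfold rot
    fun_prop
  have c2 : Continuous (fun x : ℝ × ℝ => cc' x.1 x.2) := by
    simp only [hcc']
    unfold rot
    fun_prop
  have c3 : Continuous (fun x : ℝ × ℝ => w x.1 x.2) := by
    simp only [hw]
    unfold rot
    fun_prop
  have c4 : Continuous (fun x : ℝ × ℝ => w' x.1 x.2) := by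
    simp only [hw']
    unfold rot
    fun_prop
  have hFc : Continuous (Function.uncurry F) := by
    simp only [hF, Function.uncurry_def]
    exact ((hHc.comp c1).clm_apply c3).inner c3
  have hF'c : Continuous (Function.uncurry F') := by
    simp only [hF', Function.uncurry_def]
    exact (((hHc.comp c1).clm_apply c3).inner c4).add
      (((((hHd.comp c1).clm_apply c2).clm_apply c3).add
      ((hHc.comp c1).clm_apply c4)).inner c3)
  have hFd : ∀ s t, HasDerivAt (fun s => F s t) (F' s t) s := by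
    intro s t
    have r1 : HasDerivAt (fun s : ℝ => s * ψ t) (ψ t) s := by
      simpa using (hasDerivAt_id s).mul_const (ψ t)
    have r2 : HasDerivAt (fun s => cc s t) (cc' s t) s :=
      rot_curve ha hb hab r1 (hasDerivAt_const s (γ t))
    have r3 : HasDerivAt (fun s : ℝ => deriv γ t + (s * deriv ψ t) • Agen a b (γ t))
        (deriv ψ t • Agen a b (γ t)) s := by
      have : HasDerivAt (fun s : ℝ => s * deriv ψ t) (deriv ψ t) s := by
        simpa using (hasDerivAt_id s).mul_const (deriv ψ t)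
      exact (this.smul_const _).const_add _
    have r4 : HasDerivAt (fun s => w s t) (w' s t) s := rot_curve ha hb hab r1 r3
    have r5 : HasDerivAt (fun s => H (cc s t)) (fderiv ℝ H (cc s t) (cc' s t)) s :=
      ((hH.smooth.differentiable one_ne_zero) (cc s t)).hasFDerivAt.comp_hasDerivAt s r2
    exact (r5.clm_apply r4).inner ℝ r4
  have hE := deriv_param_integral hFc hF'c hFd
  have hmin : ∀ s, (∫ t in (0 : ℝ)..1, F 0 t) ≤ ∫ t in (0 : ℝ)..1, F s t := by
    intro s
    have hder : ∀ t, HasDerivAt (fun t => cc s t) (w s t) t := by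
      intro t
      exact rot_curve ha hb hab
        (((hψ.differentiable one_ne_zero) t).hasDerivAt.const_mul s)
        ((hγ1.differentiable one_ne_zero) t).hasDerivAt
    have hpath : IsPath (fun t => cc s t) p q := by
      refine ⟨?_, ?_, ?_, ?_⟩
      · rw [contDiff_one_iff_deriv]
        refine ⟨fun t => (hder t).differentiableAt, ?_⟩
        have : deriv (fun t => cc s t) = fun t => w s t := by
          funext t; exact (hder t).deriv
        rw [this]
        exact c3.comp (by fun_prop : Continuous fun t : ℝ => (s, t))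
      · intro t ht
        have := hγ.path.mem t ht
        rw [mem_sphere_zero_iff_norm] at this ⊢
        simp only [hcc]
        rw [rot_norm ha hb hab, this]
      · simp [hcc, h0, rot_zero, hγ.path.start]
      · simp [hcc, h1, rot_zero, hγ.path.finish]
    have h2 := energy_ge hH hpath
    have h3 : (∫ t in (0 : ℝ)..1, ⟪H (cc s t) (deriv (fun t => cc s t) t),
        deriv (fun t => cc s t) t⟫) = ∫ t in (0 : ℝ)..1, F s t := by
      congr 1
      funext t
      rw [(hder t).deriv]
    have h4 : (∫ t in (0 : ℝ)..1, F 0 t) = rho H p q ^ 2 := by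
      have : ∀ t ∈ Set.uIcc (0 : ℝ) 1, F 0 t = rho H p q ^ 2 := by
        intro t ht
        rw [Set.uIcc_of_le (by norm_num)] at ht
        rw [← hγ.speed t ht, Real.sq_sqrt (hH.nonneg (path_norm hγ.path ht)
          (path_tangent hγ.path ht))]
        simp [hF, hcc, hw, rot_zero]
      rw [intervalIntegral.integral_congr this]
      simp
    rw [h4, ← h3]
    exact h2
  have hloc : IsLocalMin (fun s => ∫ t in (0 : ℝ)..1, F s t) 0 :=
    Filter.Eventually.of_forall hmin
  have hzero := hloc.hasDerivAt_eq_zero hE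
  rw [← hzero]
  congr 1
  funext t
  simp only [hF', hcc, hcc', hw, hw', zero_mul, rot_zero, zero_smul, add_zero, zero_add, map_add,
    map_smul, smul_apply, add_apply, inner_add_left, inner_add_right, inner_smul_left,
    inner_smul_right, RCLike.conj_to_real]
  rw [hH.symm (γ t) (Agen a b (γ t)) (deriv γ t), hH.symm (γ t) (Agen a b (deriv γ t)) (deriv γ t),
    real_inner_comm (H (γ t) (deriv γ t)) (Agen a b (γ t)),
    real_inner_comm (H (γ t) (deriv γ t)) (Agen a b (deriv γ t))]
  ring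

/-- du Bois-Reymond -/
theorem du_bois {J Kf : ℝ → ℝ} (hJc : Continuous J) (hKc : Continuous Kf)
    (h : ∀ ψ : ℝ → ℝ, ContDiff ℝ 1 ψ → ψ 0 = 0 → ψ 1 = 0 →
      ∫ t in (0 : ℝ)..1, (ψ t * Kf t + deriv ψ t * J t) = 0) {t : ℝ}
    (ht : t ∈ Set.Icc (0 : ℝ) 1) : J t = J 0 + ∫ s in (0 : ℝ)..t, Kf s := by
  set G : ℝ → ℝ := fun t => ∫ s in (0 : ℝ)..t, Kf s with hG
  have hGd : ∀ t, HasDerivAt G (Kf t) t := fun t =>
    intervalIntegral.integral_hasDerivAt_right (hKc.intervalIntegrable _ _)
      (hKc.stronglyMeasurableAtFilter _ _) hKc.continuousAt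
  have hGc : Continuous G := continuous_iff_continuousAt.2 fun t => (hGd t).continuousAt
  set P : ℝ → ℝ := fun t => J t - G t with hP
  have hPc : Continuous P := hJc.sub hGc
  set m : ℝ := ∫ t in (0 : ℝ)..1, P t with hm
  set ψ : ℝ → ℝ := fun t => ∫ s in (0 : ℝ)..t, (P s - m) with hψ
  have hPm : Continuous fun s => P s - m := hPc.sub continuous_const
  have hψd : ∀ t, HasDerivAt ψ (P t - m) t := fun t =>
    intervalIntegral.integral_hasDerivAt_right (hPm.intervalIntegrable _ _)
      (hPm.stronglyMeasurableAtFilter _ _) hPm.continuousAt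
  have hψ1 : ContDiff ℝ 1 ψ := by
    rw [contDiff_one_iff_deriv]
    refine ⟨fun t => (hψd t).differentiableAt, ?_⟩
    have : deriv ψ = fun t => P t - m := by funext t; exact (hψd t).deriv
    rw [this]; exact hPm
  have hψ0 : ψ 0 = 0 := by simp [hψ]
  have hψ11 : ψ 1 = 0 := by
    simp only [hψ]
    rw [intervalIntegral.integral_sub (hPc.intervalIntegrable _ _) intervalIntegrable_const]
    simp [hm]
  have hw := h ψ hψ1 hψ0 hψ11
  have hψder : deriv ψ = fun t => P t - m := by funext t; exact (hψd t).deriv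
  have hw' : ∫ t in (0 : ℝ)..1, (ψ t * Kf t + (P t - m) * J t) = 0 := by
    rw [← hw]
    congr 1
    funext t
    rw [hψder]
  have hψc : Continuous ψ := hψ1.continuous
  have hparts : ∫ t in (0 : ℝ)..1, ψ t * Kf t = - ∫ t in (0 : ℝ)..1, (P t - m) * G t := by
    have := intervalIntegral.integral_mul_deriv_eq_deriv_mul (a := 0) (b := 1)
      (u := ψ) (v := G) (u' := fun t => P t - m) (v' := Kf)
      (fun t _ => hψd t) (fun t _ => hGd t) (hPm.intervalIntegrable _ _)
      (hKc.intervalIntegrable _ _)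
    rw [this, hψ0, hψ11]
    ring
  have hint : ∫ t in (0 : ℝ)..1, (P t - m) ^ 2 = 0 := by
    have e1 : ∫ t in (0 : ℝ)..1, (ψ t * Kf t + (P t - m) * J t) =
        (∫ t in (0 : ℝ)..1, ψ t * Kf t) + ∫ t in (0 : ℝ)..1, (P t - m) * J t :=
      intervalIntegral.integral_add ((hψc.mul hKc).intervalIntegrable _ _)
        ((hPm.mul hJc).intervalIntegrable _ _)
    rw [e1, hparts] at hw'
    have e2 : ∫ t in (0 : ℝ)..1, (P t - m) * P t =
        (∫ t in (0 : ℝ)..1, (P t - m) * J t) - ∫ t in (0 : ℝ)..1, (P t - m) * G t := by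
      rw [← intervalIntegral.integral_sub (f := fun t => (P t - m) * J t)
        (g := fun t => (P t - m) * G t) ((hPm.mul hJc).intervalIntegrable _ _)
        ((hPm.mul hGc).intervalIntegrable _ _)]
      congr 1
      funext t
      simp only [hP]
      ring
    have e3 : ∫ t in (0 : ℝ)..1, (P t - m) ^ 2 =
        (∫ t in (0 : ℝ)..1, (P t - m) * P t) - m * ∫ t in (0 : ℝ)..1, (P t - m) := by
      rw [← intervalIntegral.integral_const_mul, ← intervalIntegral.integral_sub
        (f := fun t => (P t - m) * P t) (g := fun t => m * (P t - m))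
        ((hPm.mul hPc).intervalIntegrable _ _) ((continuous_const.mul hPm).intervalIntegrable _ _)]
      congr 1
      funext t
      ring
    have e4 : ∫ t in (0 : ℝ)..1, (P t - m) = 0 := hψ11
    rw [e3, e2, e4]
    linarith
  have hconst : ∀ t ∈ Set.Icc (0 : ℝ) 1, P t = m := by
    intro t ht
    by_contra hne
    have hpos : 0 < ∫ t in (0 : ℝ)..1, (P t - m) ^ 2 := by
      refine intervalIntegral.integral_pos (by norm_num) ((hPm.pow 2).continuousOn)
        (fun x _ => sq_nonneg _) ⟨t, ht, ?_⟩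
      have : P t - m ≠ 0 := sub_ne_zero.2 hne
      positivity
    rw [hint] at hpos
    exact lt_irrefl _ hpos
  have h1 := hconst t ht
  have h2 := hconst 0 ⟨le_rfl, by norm_num⟩
  have h3 : G 0 = 0 := by simp [hG]
  have h4 : J t - G t = J 0 - G 0 := by
    have : P t = P 0 := by rw [h1, h2]
    simpa [hP] using this
  rw [h3] at h4
  have : J t = J 0 + G t := by linarith
  exact this

end Pool.Agent.V7H34.NO
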