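import Mathlib
import Pool.Agent.V7H34.NO.EL

/-!
# Cutting off, normalising, and the comparison of the distances of a converging sequence of metrics
-/

set_option autoImplicit false

open scoped RealInnerProductSpace Topology Interval ContDiff
open MeasureTheory Filter

namespace Pool.Agent.V7H34.NO

open Pool.Agent.V11191.Opp (E3 IsPath)

/-- a cut-off function: `0` near `0`, `1` near the sphere -/
noncomputable def chi (z : E3) : ℝ := Real.smoothTransition (4 * ‖z‖ ^ 2 - 1)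

theorem chi_smooth : ContDiff ℝ ∞ chi := by
  unfold chi
  refine Real.smoothTransition.contDiff.comp ?_
  exact (contDiff_const.mul (contDiff_norm_sq ℝ)).sub contDiff_const

theorem chi_one {z : E3} (h : 1 / 2 ≤ ‖z‖ ^ 2) : chi z = 1 :=
  Real.smoothTransition.one_of_one_le (by linarith)

theorem chi_zero {z : E3} (h : ‖z‖ ^ 2 ≤ 1 / 4) : chi z = 0 :=
  Real.smoothTransition.zero_of_nonpos (by linarith)

theorem cut_smooth {F : Type*} [NormedAddCommGroup F] [NormedSpace ℝ F] {f : E3 → F}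
    (hf : ContDiffOn ℝ ∞ f {0}ᶜ) : ContDiff ℝ ∞ fun z => chi z • f z := by
  rw [contDiff_iff_contDiffAt]
  intro z
  by_cases hz : z = 0
  · subst hz
    have h1 : (fun z : E3 => chi z • f z) =ᶠ[𝓝 0] fun _ => (0 : F) := by
      have h2 : Metric.ball (0 : E3) (1 / 2) ∈ 𝓝 (0 : E3) := Metric.ball_mem_nhds _ (by norm_num)
      filter_upwards [h2] with w hw
      rw [mem_ball_zero_iff] at hw
      rw [chi_zero (by nlinarith [norm_nonneg w]), zero_smul]
    exact contDiffAt_const.congr_of_eventuallyEq h1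
  · have h1 : ContDiffAt ℝ ∞ f z := hf.contDiffAt (isOpen_compl_singleton.mem_nhds hz)
    exact chi_smooth.contDiffAt.smul h1

/-- normalisation, smooth everywhere -/
noncomputable def nrm (z : E3) : E3 := chi z • (‖z‖⁻¹ • z)

theorem nrm_smooth : ContDiff ℝ ∞ nrm := by
  refine cut_smooth (f := fun z : E3 => ‖z‖⁻¹ • z) ?_
  intro z hz
  have hz' : z ≠ 0 := hz
  have h1 : ContDiffAt ℝ ∞ (fun z : E3 => ‖z‖) z := contDiffAt_norm ℝ hz'
  exact ((h1.inv (norm_ne_zero_iff.2 hz')).smul contDiffAt_id).contDiffWithinAt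

theorem nrm_norm {z : E3} (h : 1 / 2 ≤ ‖z‖ ^ 2) : ‖nrm z‖ = 1 := by
  have h0 : ‖z‖ ≠ 0 := by
    intro h1
    rw [h1] at h
    norm_num at h
  rw [nrm, chi_one h, one_smul, norm_smul, norm_inv, norm_norm, inv_mul_cancel₀ h0]

theorem nrm_self {z : E3} (h : ‖z‖ = 1) : nrm z = z := by
  rw [nrm, chi_one (by rw [h]; norm_num), h, inv_one, one_smul, one_smul]

theorem fderiv_nrm {c : ℝ → E3} {p q : E3} (hc : IsPath c p q) {t : ℝ}
    (ht : t ∈ Set.Icc (0 : ℝ) 1) : fderiv ℝ nrm (c t) (deriv c t) = deriv c t := by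
  have h1 : HasDerivAt c (deriv c t) t := ((hc.c1.differentiable one_ne_zero) t).hasDerivAt
  have h2 : HasDerivAt (fun t => nrm (c t)) (fderiv ℝ nrm (c t) (deriv c t)) t :=
    ((nrm_smooth.differentiable (by simp)) (c t)).hasFDerivAt.comp_hasDerivAt t h1
  have h3 : HasDerivWithinAt c (fderiv ℝ nrm (c t) (deriv c t)) (Set.Icc 0 1) t := by
    refine h2.hasDerivWithinAt.congr (fun s hs => ?_) ?_
    · rw [nrm_self (path_norm hc hs)]
    · rw [nrm_self (path_norm hc ht)]
  have huniq : UniqueDiffWithinAt ℝ (Set.Icc (0 : ℝ) 1) t :=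
    (uniqueDiffOn_Icc (by norm_num)) t ht
  exact huniq.eq_deriv _ h3 h1.hasDerivWithinAt

theorem tendsto_apply {L : ℕ → E3 →L[ℝ] E3} {L0 : E3 →L[ℝ] E3} (hL : Tendsto L atTop (𝓝 L0))
    {v : ℕ → E3} {v0 : E3} (hv : Tendsto v atTop (𝓝 v0)) :
    Tendsto (fun n => L n (v n)) atTop (𝓝 (L0 v0)) :=
  ((isBoundedBilinearMap_apply (𝕜 := ℝ) (E := E3) (F := E3)).continuous.tendsto (L0, v0)).comp
    (hL.prodMk_nhds hv)

/-- convergence of the metrics along converging points and vectors -/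
theorem conv_form {H : E3 → E3 →L[ℝ] E3} {Hn : ℕ → E3 → E3 →L[ℝ] E3} (hH : Continuous H)
    {ε : ℕ → ℝ} (hε : Tendsto ε atTop (𝓝 0))
    (hconv : ∀ n, ∀ x : E3, ‖x‖ = 1 → ‖Hn n x - H x‖ ≤ ε n) {z : ℕ → E3} {z0 : E3}
    (hz : Tendsto z atTop (𝓝 z0)) (hz1 : ∀ᶠ n in atTop, ‖z n‖ = 1) {v : ℕ → E3} {v0 : E3}
    (hv : Tendsto v atTop (𝓝 v0)) :
    Tendsto (fun n => Real.sqrt ⟪Hn n (z n) (v n), v n⟫) atTop (𝓝 (Real.sqrt ⟪H z0 v0, v0⟫)) := by
  have h1 : Tendsto (fun n => Hn n (z n)) atTop (𝓝 (H z0)) := by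
    have h2 : Tendsto (fun n => H (z n)) atTop (𝓝 (H z0)) := (hH.tendsto z0).comp hz
    have h3 : Tendsto (fun n => Hn n (z n) - H (z n)) atTop (𝓝 0) := by
      refine squeeze_zero_norm' ?_ hε
      filter_upwards [hz1] with n hn
      exact hconv n (z n) hn
    have h4 := h3.add h2
    rw [zero_add] at h4
    refine h4.congr fun n => ?_
    abel
  exact ((tendsto_apply h1 hv).inner hv).sqrt

/-- the limit of the distances is at most the length of any path for the limit metric -/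
theorem cmp {H : E3 → E3 →L[ℝ] E3} {Hn : ℕ → E3 → E3 →L[ℝ] E3} (hH : Continuous H)
    (hHn : ∀ n, Continuous (Hn n)) {K : ℝ} (hK : 0 ≤ K) (hup : ∀ n, ∀ x : E3, ‖x‖ = 1 → ‖Hn n x‖ ≤ K)
    {ε : ℕ → ℝ} (hε : Tendsto ε atTop (𝓝 0))
    (hconv : ∀ n, ∀ x : E3, ‖x‖ = 1 → ‖Hn n x - H x‖ ≤ ε n) {yn xn : ℕ → E3} {y x : E3}
    (hyn : ∀ n, ‖yn n‖ = 1) (hxn : ∀ n, ‖xn n‖ = 1) (hy : Tendsto yn atTop (𝓝 y))
    (hx : Tendsto xn atTop (𝓝 x)) {d : ℝ}
    (hd : Tendsto (fun n => rho (Hn n) (yn n) (xn n)) atTop (𝓝 d)) {c : ℝ → E3}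
    (hc : IsPath c y x) : d ≤ len H c := by
  have hc1 := hc.c1
  have hcc : Continuous c := hc1.continuous
  have hcd : Continuous (deriv c) := hc1.continuous_deriv le_rfl
  set z : ℕ → ℝ → E3 := fun n t => c t + ((1 - t) • (yn n - y) + t • (xn n - x)) with hz
  set z' : ℕ → ℝ → E3 := fun n t => deriv c t + (-(yn n - y) + (xn n - x)) with hz'
  have hzd : ∀ n t, HasDerivAt (z n) (z' n t) t := by
    intro n t
    have a1 : HasDerivAt c (deriv c t) t := ((hc1.differentiable one_ne_zero) t).hasDerivAt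
    have a2 : HasDerivAt (fun t : ℝ => (1 - t) • (yn n - y)) (-(yn n - y)) t := by
      have := ((hasDerivAt_id t).const_sub 1).smul_const (yn n - y)
      simpa using this
    have a3 : HasDerivAt (fun t : ℝ => t • (xn n - x)) (xn n - x) t := by
      simpa using (hasDerivAt_id t).smul_const (xn n - x)
    exact a1.add (a2.add a3)
  have hz1 : ∀ n, ContDiff ℝ 1 (z n) := by
    intro n
    simp only [hz]
    have : ContDiff ℝ 1 fun t : ℝ => ((1 - t) • (yn n - y) + t • (xn n - x)) := by fun_prop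
    exact hc1.add this
  set cn : ℕ → ℝ → E3 := fun n t => nrm (z n t) with hcn
  have hN1 : ContDiff ℝ 1 nrm := nrm_smooth.of_le (by simp)
  have hcn1 : ∀ n, ContDiff ℝ 1 (cn n) := fun n => hN1.comp (hz1 n)
  have hcnd : ∀ n t, deriv (cn n) t = fderiv ℝ nrm (z n t) (z' n t) := by
    intro n t
    exact (((hN1.differentiable one_ne_zero) (z n t)).hasFDerivAt.comp_hasDerivAt t
      (hzd n t)).deriv
  have hNc : Continuous (fderiv ℝ nrm) := hN1.continuous_fderiv one_ne_zero
  have ey : ∀ᶠ n in atTop, ‖yn n - y‖ ≤ 1 / 8 := by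
    have := (tendsto_iff_norm_sub_tendsto_zero.1 hy).eventually
      (gt_mem_nhds (by norm_num : (0 : ℝ) < 1 / 8))
    exact this.mono fun n hn => hn.le
  have ex : ∀ᶠ n in atTop, ‖xn n - x‖ ≤ 1 / 8 := by
    have := (tendsto_iff_norm_sub_tendsto_zero.1 hx).eventually
      (gt_mem_nhds (by norm_num : (0 : ℝ) < 1 / 8))
    exact this.mono fun n hn => hn.le
  have hsmall : ∀ n, ‖yn n - y‖ ≤ 1 / 8 → ‖xn n - x‖ ≤ 1 / 8 → ∀ t ∈ Set.Icc (0 : ℝ) 1,
      ‖z n t - c t‖ ≤ 1 / 4 := by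
    intro n h1 h2 t ht
    have e : z n t - c t = (1 - t) • (yn n - y) + t • (xn n - x) := by
      simp only [hz]
      abel
    rw [e]
    refine (norm_add_le _ _).trans ?_
    rw [norm_smul, norm_smul, Real.norm_eq_abs, Real.norm_eq_abs, abs_of_nonneg ht.1,
      abs_of_nonneg (by linarith [ht.2])]
    nlinarith [ht.1, ht.2, norm_nonneg (yn n - y), norm_nonneg (xn n - x)]
  have hznorm : ∀ n, ‖yn n - y‖ ≤ 1 / 8 → ‖xn n - x‖ ≤ 1 / 8 → ∀ t ∈ Set.Icc (0 : ℝ) 1,
      1 / 2 ≤ ‖z n t‖ ^ 2 ∧ ‖z n t‖ ≤ 2 := by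
    intro n h1 h2 t ht
    have h3 := hsmall n h1 h2 t ht
    have h4 := path_norm hc ht
    have h5 : ‖c t‖ - ‖z n t‖ ≤ ‖z n t - c t‖ := by
      rw [norm_sub_rev]
      exact norm_sub_norm_le _ _
    have h6 : ‖z n t‖ - ‖c t‖ ≤ ‖z n t - c t‖ := norm_sub_norm_le _ _
    constructor
    · nlinarith
    · linarith
  have hpath : ∀ᶠ n in atTop, IsPath (cn n) (yn n) (xn n) := by
    filter_upwards [ey, ex] with n h1 h2
    refine ⟨hcn1 n, fun t ht => ?_, ?_, ?_⟩
    · rw [mem_sphere_zero_iff_norm]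
      exact nrm_norm (hznorm n h1 h2 t ht).1
    · simp only [hcn, hz]
      rw [hc.start, sub_zero, one_smul, zero_smul, add_zero, add_sub_cancel, nrm_self (hyn n)]
    · simp only [hcn, hz]
      rw [hc.finish, sub_self, one_smul, zero_smul, zero_add, add_sub_cancel, nrm_self (hxn n)]
  -- bounds
  obtain ⟨B1, hB1⟩ := (isCompact_closedBall (0 : E3) 2).exists_bound_of_continuousOn
    hNc.continuousOn
  obtain ⟨B2, hB2⟩ := (isCompact_Icc (a := (0 : ℝ)) (b := 1)).exists_bound_of_continuousOn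
    hcd.continuousOn
  have hB10 : 0 ≤ B1 := (norm_nonneg _).trans (hB1 0 (by simp))
  have hB20 : 0 ≤ B2 := (norm_nonneg _).trans (hB2 0 ⟨le_rfl, by norm_num⟩)
  have hcnb : ∀ n, ‖yn n - y‖ ≤ 1 / 8 → ‖xn n - x‖ ≤ 1 / 8 → ∀ t ∈ Set.Icc (0 : ℝ) 1,
      ‖deriv (cn n) t‖ ≤ B1 * (B2 + 1) := by
    intro n h1 h2 t ht
    rw [hcnd]
    refine ((fderiv ℝ nrm (z n t)).le_opNorm _).trans ?_
    refine mul_le_mul (hB1 _ ?_) ?_ (norm_nonneg _) hB10
    · rw [mem_closedBall_zero_iff]
      exact (hznorm n h1 h2 t ht).2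
    · simp only [hz']
      refine (norm_add_le _ _).trans (add_le_add (hB2 t ht) ?_)
      refine (norm_add_le _ _).trans ?_
      rw [norm_neg]
      linarith
  -- convergence of the lengths
  have hlen : Tendsto (fun n => len (Hn n) (cn n)) atTop (𝓝 (len H c)) := by
    unfold len
    refine intervalIntegral.tendsto_integral_filter_of_dominated_convergence
      (fun _ => Real.sqrt K * (B1 * (B2 + 1))) ?_ ?_ ?_ ?_
    · refine Eventually.of_forall fun n => ?_
      exact (cont_speed (hHn n) (hcn1 n)).sqrt.aestronglyMeasurable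
    · filter_upwards [ey, ex] with n h1 h2
      refine Eventually.of_forall fun t ht => ?_
      rw [Set.uIoc_of_le zero_le_one] at ht
      have ht' : t ∈ Set.Icc (0 : ℝ) 1 := ⟨ht.1.le, ht.2⟩
      rw [Real.norm_eq_abs, abs_of_nonneg (Real.sqrt_nonneg _)]
      have hb := hcnb n h1 h2 t ht'
      have hin : ⟪Hn n (cn n t) (deriv (cn n) t), deriv (cn n) t⟫ ≤
          K * (B1 * (B2 + 1)) ^ 2 := by
        refine (real_inner_le_norm _ _).trans ?_
        have h3 : ‖Hn n (cn n t) (deriv (cn n) t)‖ ≤ K * (B1 * (B2 + 1)) :=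
          ((Hn n (cn n t)).le_opNorm _).trans
            (mul_le_mul (hup n _ (nrm_norm (hznorm n h1 h2 t ht').1)) hb (norm_nonneg _) hK)
        calc _ ≤ K * (B1 * (B2 + 1)) * (B1 * (B2 + 1)) :=
              mul_le_mul h3 hb (norm_nonneg _) (by positivity)
          _ = K * (B1 * (B2 + 1)) ^ 2 := by ring
      calc _ ≤ Real.sqrt (K * (B1 * (B2 + 1)) ^ 2) := Real.sqrt_le_sqrt hin
        _ = Real.sqrt K * (B1 * (B2 + 1)) := by
            rw [Real.sqrt_mul hK, Real.sqrt_sq (by positivity)]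
    · exact intervalIntegrable_const
    · refine Eventually.of_forall fun t ht => ?_
      rw [Set.uIoc_of_le zero_le_one] at ht
      have ht' : t ∈ Set.Icc (0 : ℝ) 1 := ⟨ht.1.le, ht.2⟩
      have t1 : Tendsto (fun n => yn n - y) atTop (𝓝 0) := by
        have := hy.sub_const y
        rwa [sub_self] at this
      have t2 : Tendsto (fun n => xn n - x) atTop (𝓝 0) := by
        have := hx.sub_const x
        rwa [sub_self] at this
      have t3 : Tendsto (fun n => z n t) atTop (𝓝 (c t)) := by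
        have := (tendsto_const_nhds (x := c t)).add
          ((t1.const_smul (1 - t)).add (t2.const_smul t))
        simpa using this
      have t4 : Tendsto (fun n => z' n t) atTop (𝓝 (deriv c t)) := by
        have := (tendsto_const_nhds (x := deriv c t)).add (t1.neg.add t2)
        rw [neg_zero, add_zero, add_zero] at this
        exact this
      have t5 : Tendsto (fun n => cn n t) atTop (𝓝 (c t)) := by
        have := (hN1.continuous.tendsto (c t)).comp t3
        rwa [nrm_self (path_norm hc ht')] at this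
      have t6 : Tendsto (fun n => deriv (cn n) t) atTop (𝓝 (deriv c t)) := by
        have h1 := tendsto_apply ((hNc.tendsto (c t)).comp t3) t4
        rw [fderiv_nrm hc ht'] at h1
        refine h1.congr fun n => ?_
        rw [hcnd]
        rfl
      refine conv_form hH hε hconv t5 ?_ t6
      filter_upwards [ey, ex] with n h1 h2
      exact nrm_norm (hznorm n h1 h2 t ht').1
  refine le_of_tendsto_of_tendsto hd hlen ?_
  filter_upwards [hpath] with n hn
  exact rho_le hn

end Pool.Agent.V7H34.NO
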