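import Mathlib
import Pool.Agent.V7H34.NO.EL

/-!
# The velocity of a segment is Lipschitz, with a constant depending only on the bounds of the metric
-/

set_option autoImplicit false

open scoped RealInnerProductSpace Topology Interval
open MeasureTheory

namespace Pool.Agent.V7H34.NO

open Pool.Agent.V11191.Opp (E3 IsPath rot rot_zero rot_norm Agen Agen_norm_le rot_curve
  rot_hasDerivAt deriv_param_integral Agen_apply)

variable {H : E3 → E3 →L[ℝ] E3} {κ K : ℝ} {γ : ℝ → E3} {p q : E3}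

theorem speed_sq (hH : Bd H κ K) (hγ : IsSegment H γ p q) {t : ℝ} (ht : t ∈ Set.Icc (0 : ℝ) 1) :
    ⟪H (γ t) (deriv γ t), deriv γ t⟫ = rho H p q ^ 2 := by
  rw [← hγ.speed t ht, Real.sq_sqrt (hH.nonneg (path_norm hγ.path ht) (path_tangent hγ.path ht))]

theorem speed_le (hH : Bd H κ K) (hγ : IsSegment H γ p q) {t : ℝ} (ht : t ∈ Set.Icc (0 : ℝ) 1) :
    ‖deriv γ t‖ ≤ rho H p q / Real.sqrt κ := by
  have h1 := hH.low (γ t) (deriv γ t) (path_norm hγ.path ht) (path_tangent hγ.path ht)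
  rw [speed_sq hH hγ ht] at h1
  have h2 : 0 < Real.sqrt κ := Real.sqrt_pos.2 hH.κpos
  rw [le_div_iff₀ h2]
  refine le_of_pow_le_pow_left₀ two_ne_zero (rho_nonneg _ _ _) ?_
  rw [mul_pow, Real.sq_sqrt hH.κpos.le]
  linarith

theorem speed_ge (hH : Bd H κ K) (hγ : IsSegment H γ p q) {t : ℝ} (ht : t ∈ Set.Icc (0 : ℝ) 1) :
    rho H p q ^ 2 ≤ K * ‖deriv γ t‖ ^ 2 := by
  rw [← speed_sq hH hγ ht]
  refine (real_inner_le_norm _ _).trans ?_
  have h1 := (H (γ t)).le_opNorm (deriv γ t)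
  have h2 := hH.up (γ t) (path_norm hγ.path ht)
  have h3 : ‖H (γ t) (deriv γ t)‖ ≤ K * ‖deriv γ t‖ :=
    h1.trans (mul_le_mul_of_nonneg_right h2 (norm_nonneg _))
  calc ‖H (γ t) (deriv γ t)‖ * ‖deriv γ t‖ ≤ K * ‖deriv γ t‖ * ‖deriv γ t‖ :=
        mul_le_mul_of_nonneg_right h3 (norm_nonneg _)
    _ = K * ‖deriv γ t‖ ^ 2 := by ring

/-- Lipschitz from a bound for the derivative on `[0,1]` -/
theorem lip_of_bound {F : Type*} [NormedAddCommGroup F] [NormedSpace ℝ F] {f f' : ℝ → F} {C : ℝ}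
    (hf : ∀ t ∈ Set.Icc (0 : ℝ) 1, HasDerivAt f (f' t) t)
    (hb : ∀ t ∈ Set.Icc (0 : ℝ) 1, ‖f' t‖ ≤ C) {s t : ℝ} (hs : s ∈ Set.Icc (0 : ℝ) 1)
    (ht : t ∈ Set.Icc (0 : ℝ) 1) : ‖f t - f s‖ ≤ C * |t - s| :=
  (convex_Icc (0 : ℝ) 1).norm_image_sub_le_of_norm_hasDerivWithin_le
    (fun x hx => (hf x hx).hasDerivWithinAt) hb hs ht

theorem J_lip (hH : Bd H κ K) (hγ : IsSegment H γ p q) {V : ℝ} (hV : 0 ≤ V)
    (hVb : ∀ t ∈ Set.Icc (0 : ℝ) 1, ‖deriv γ t‖ ≤ V) {a b : E3} (ha : ‖a‖ = 1) (hb : ‖b‖ = 1)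
    (hab : ⟪a, b⟫ = 0) {s t : ℝ} (hs : s ∈ Set.Icc (0 : ℝ) 1) (ht : t ∈ Set.Icc (0 : ℝ) 1) :
    |2 * ⟪H (γ t) (deriv γ t), Agen a b (γ t)⟫ - 2 * ⟪H (γ s) (deriv γ s), Agen a b (γ s)⟫| ≤
      3 * K * V ^ 2 * |t - s| := by
  have hγ1 := hγ.path.c1
  have hγc : Continuous γ := hγ1.continuous
  have hγd : Continuous (deriv γ) := hγ1.continuous_deriv le_rfl
  have hHc : Continuous H := hH.smooth.continuous
  have hHd : Continuous (fderiv ℝ H) := hH.smooth.continuous_fderiv one_ne_zero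
  have hAc : Continuous (fun p : E3 => Agen a b p) := (Agen a b).continuous
  have hK0 := hH.K_nonneg
  set J : ℝ → ℝ := fun t => 2 * ⟪H (γ t) (deriv γ t), Agen a b (γ t)⟫ with hJ
  set Kf : ℝ → ℝ := fun t => ⟪fderiv ℝ H (γ t) (Agen a b (γ t)) (deriv γ t), deriv γ t⟫ +
      2 * ⟪H (γ t) (deriv γ t), Agen a b (deriv γ t)⟫ with hKf
  have hJc : Continuous J :=
    (((hHc.comp hγc).clm_apply hγd).inner (hAc.comp hγc)).const_mul 2 |> fun h => h
  have hKc : Continuous Kf := by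
    have h1 : Continuous fun t => fderiv ℝ H (γ t) (Agen a b (γ t)) (deriv γ t) :=
      ((hHd.comp hγc).clm_apply (hAc.comp hγc)).clm_apply hγd
    exact (h1.inner hγd).add ((((hHc.comp hγc).clm_apply hγd).inner (hAc.comp hγd)).const_mul 2)
  have hel : ∀ t ∈ Set.Icc (0 : ℝ) 1, J t = J 0 + ∫ s in (0 : ℝ)..t, Kf s := fun t ht =>
    du_bois hJc hKc (fun ψ hψ h0 h1 => weak_el hH hγ ha hb hab hψ h0 h1) ht
  have hKb : ∀ t ∈ Set.Icc (0 : ℝ) 1, ‖Kf t‖ ≤ 3 * K * V ^ 2 := by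
    intro t ht
    have n1 := path_norm hγ.path ht
    have hv := hVb t ht
    have hA1 : ‖Agen a b (γ t)‖ ≤ 1 := (Agen_norm_le ha hb hab _).trans (le_of_eq n1)
    have hA2 : ‖Agen a b (deriv γ t)‖ ≤ V := (Agen_norm_le ha hb hab _).trans hv
    have e1 : ‖fderiv ℝ H (γ t) (Agen a b (γ t)) (deriv γ t)‖ ≤ K * V := by
      refine ((fderiv ℝ H (γ t) (Agen a b (γ t))).le_opNorm _).trans ?_
      have e2 : ‖fderiv ℝ H (γ t) (Agen a b (γ t))‖ ≤ K := by
        refine ((fderiv ℝ H (γ t)).le_opNorm _).trans ?_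
        calc ‖fderiv ℝ H (γ t)‖ * ‖Agen a b (γ t)‖ ≤ K * 1 :=
              mul_le_mul (hH.dup _ n1) hA1 (norm_nonneg _) hK0
          _ = K := mul_one K
      exact mul_le_mul e2 hv (norm_nonneg _) hK0
    have e3 : ‖H (γ t) (deriv γ t)‖ ≤ K * V :=
      ((H (γ t)).le_opNorm _).trans (mul_le_mul (hH.up _ n1) hv (norm_nonneg _) hK0)
    have e4 : |⟪fderiv ℝ H (γ t) (Agen a b (γ t)) (deriv γ t), deriv γ t⟫| ≤ K * V * V :=
      (abs_real_inner_le_norm _ _).trans (mul_le_mul e1 hv (norm_nonneg _) (by positivity))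
    have e5 : |⟪H (γ t) (deriv γ t), Agen a b (deriv γ t)⟫| ≤ K * V * V :=
      (abs_real_inner_le_norm _ _).trans (mul_le_mul e3 hA2 (norm_nonneg _) (by positivity))
    rw [Real.norm_eq_abs]
    simp only [hKf]
    refine (abs_add_le _ _).trans ?_
    rw [abs_mul, abs_two]
    nlinarith
  have e : J t - J s = ∫ r in s..t, Kf r := by
    rw [hel t ht, hel s hs]
    have := intervalIntegral.integral_interval_sub_left (hKc.intervalIntegrable 0 t)
      (hKc.intervalIntegrable (μ := volume) 0 s)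
    rw [← this]
    ring
  show |J t - J s| ≤ _
  rw [e, ← Real.norm_eq_abs]
  refine intervalIntegral.norm_integral_le_of_norm_le_const fun r hr => hKb r ?_
  have h1 := Set.uIoc_subset_uIcc hr
  exact Set.uIcc_subset_Icc hs ht h1

/-- The Lipschitz constant -/
noncomputable def Cl (κ K : ℝ) : ℝ := (9 / 2 * K / κ + 1) / κ

theorem Cl_pos (hH : Bd H κ K) : 0 < Cl κ K := by
  have := hH.κpos
  have := hH.K_nonneg
  unfold Cl
  positivity

theorem deriv_lip (hH : Bd H κ K) (hγ : IsSegment H γ p q) {s t : ℝ}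
    (hs : s ∈ Set.Icc (0 : ℝ) 1) (ht : t ∈ Set.Icc (0 : ℝ) 1) :
    ‖deriv γ t - deriv γ s‖ ≤ Cl κ K * rho H p q ^ 2 * |t - s| := by
  have hκ := hH.κpos
  have hK0 := hH.K_nonneg
  have hγ1 := hγ.path.c1
  set d := rho H p q with hd
  have hd0 : 0 ≤ d := rho_nonneg _ _ _
  set V := d / Real.sqrt κ with hVd
  have hV : 0 ≤ V := by positivity
  have hV2 : V ^ 2 = d ^ 2 / κ := by rw [hVd, div_pow, Real.sq_sqrt hκ.le]
  have hVb : ∀ t ∈ Set.Icc (0 : ℝ) 1, ‖deriv γ t‖ ≤ V := fun t ht => speed_le hH hγ ht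
  have hder : ∀ t, HasDerivAt γ (deriv γ t) t := fun t =>
    ((hγ1.differentiable one_ne_zero) t).hasDerivAt
  set δ := |t - s| with hδ
  have hδ0 : 0 ≤ δ := abs_nonneg _
  have hγl : ‖γ t - γ s‖ ≤ V * δ := lip_of_bound (fun t _ => hder t) hVb hs ht
  have hHl : ‖H (γ t) - H (γ s)‖ ≤ K * V * δ := by
    refine lip_of_bound (f := fun t => H (γ t)) (f' := fun t => fderiv ℝ H (γ t) (deriv γ t))
      (fun t _ => ((hH.smooth.differentiable one_ne_zero) (γ t)).hasFDerivAt.comp_hasDerivAt t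
        (hder t)) (fun t ht => ?_) hs ht
    exact ((fderiv ℝ H (γ t)).le_opNorm _).trans
      (mul_le_mul (hH.dup _ (path_norm hγ.path ht)) (hVb t ht) (norm_nonneg _) hK0)
  have nt := path_norm hγ.path ht
  have ns := path_norm hγ.path hs
  set x := γ t with hx
  set w := deriv γ t - deriv γ s with hw
  have hxx : ⟪x, x⟫ = 1 := by rw [real_inner_self_eq_norm_sq, nt]; norm_num
  set n0 := ⟪x, w⟫ with hn0
  have hn0b : |n0| ≤ V ^ 2 * δ := by
    have e1 : n0 = -⟪γ t - γ s, deriv γ s⟫ := by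
      rw [hn0, hw, inner_sub_right, inner_sub_left, path_tangent hγ.path ht,
        path_tangent hγ.path hs, sub_zero, zero_sub]
    rw [e1, abs_neg]
    refine (abs_real_inner_le_norm _ _).trans ?_
    calc ‖γ t - γ s‖ * ‖deriv γ s‖ ≤ V * δ * V :=
          mul_le_mul hγl (hVb s hs) (norm_nonneg _) (by positivity)
      _ = V ^ 2 * δ := by ring
  set wT := w - n0 • x with hwT
  have hxwT : ⟪x, wT⟫ = 0 := by
    rw [hwT, inner_sub_right, inner_smul_right, hxx, ← hn0]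
    ring
  have hwTb : ‖wT‖ ≤ 9 / 2 * K / κ * V ^ 2 * δ := by
    by_cases h0 : wT = 0
    · rw [h0, norm_zero]
      positivity
    · have hn : 0 < ‖wT‖ := norm_pos_iff.2 h0
      set e := ‖wT‖⁻¹ • wT with he
      have he1 : ‖e‖ = 1 := by
        rw [he, norm_smul, norm_inv, norm_norm, inv_mul_cancel₀ hn.ne']
      have hxe : ⟪x, e⟫ = 0 := by rw [he, inner_smul_right, hxwT, mul_zero]
      have hex : ⟪e, x⟫ = 0 := by rw [real_inner_comm]; exact hxe
      have hwe : wT = ‖wT‖ • e := by rw [he, smul_smul, mul_inv_cancel₀ hn.ne', one_smul]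
      have hAx : Agen x e x = e := by rw [Agen_apply, hxx, hex, one_smul, zero_smul, sub_zero]
      have hJ := J_lip hH hγ hV hVb nt he1 hxe hs ht
      rw [← hx, hAx] at hJ
      -- the other two differences
      have d1 : |⟪(H x - H (γ s)) (deriv γ s), e⟫| ≤ K * V ^ 2 * δ := by
        refine (abs_real_inner_le_norm _ _).trans ?_
        rw [he1, mul_one]
        refine ((H x - H (γ s)).le_opNorm _).trans ?_
        calc ‖H x - H (γ s)‖ * ‖deriv γ s‖ ≤ K * V * δ * V :=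
              mul_le_mul hHl (hVb s hs) (norm_nonneg _) (by positivity)
          _ = K * V ^ 2 * δ := by ring
      have hHs : ‖H (γ s) (deriv γ s)‖ ≤ K * V :=
        ((H (γ s)).le_opNorm _).trans (mul_le_mul (hH.up _ ns) (hVb s hs) (norm_nonneg _) hK0)
      have d2 : |⟪H (γ s) (deriv γ s), Agen x e (x - γ s)⟫| ≤ K * V ^ 2 * δ := by
        refine (abs_real_inner_le_norm _ _).trans ?_
        calc ‖H (γ s) (deriv γ s)‖ * ‖Agen x e (x - γ s)‖ ≤ K * V * (V * δ) :=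
              mul_le_mul hHs ((Agen_norm_le nt he1 hxe _).trans hγl) (norm_nonneg _)
                (by positivity)
          _ = K * V ^ 2 * δ := by ring
      have e1 : ⟪H x w, e⟫ = (2 * ⟪H x (deriv γ t), e⟫ -
          2 * ⟪H (γ s) (deriv γ s), Agen x e (γ s)⟫) / 2 -
          (⟪(H x - H (γ s)) (deriv γ s), e⟫ + ⟪H (γ s) (deriv γ s), Agen x e (x - γ s)⟫) := by
        rw [hw, map_sub, map_sub, hAx, inner_sub_left, sub_apply, inner_sub_left, inner_sub_right]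
        ring
      have d3 : |⟪H x w, e⟫| ≤ 7 / 2 * K * V ^ 2 * δ := by
        rw [e1]
        have a1 := abs_le.1 hJ
        have a2 := abs_le.1 d1
        have a3 := abs_le.1 d2
        rw [abs_le]
        constructor
        · linarith [a1.1, a2.2, a3.2]
        · linarith [a1.2, a2.1, a3.1]
      have d4 : |n0 * ⟪H x x, e⟫| ≤ K * V ^ 2 * δ := by
        rw [abs_mul]
        have : |⟪H x x, e⟫| ≤ K := by
          refine (abs_real_inner_le_norm _ _).trans ?_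
          rw [he1, mul_one]
          refine ((H x).le_opNorm _).trans ?_
          rw [nt, mul_one]
          exact hH.up x nt
        calc |n0| * |⟪H x x, e⟫| ≤ V ^ 2 * δ * K :=
              mul_le_mul hn0b this (abs_nonneg _) (by positivity)
          _ = K * V ^ 2 * δ := by ring
      have e2 : ⟪H x wT, e⟫ = ⟪H x w, e⟫ - n0 * ⟪H x x, e⟫ := by
        rw [hwT, map_sub, map_smul, inner_sub_left, inner_smul_left, RCLike.conj_to_real]
      have e3 : κ * ‖wT‖ ≤ ⟪H x wT, e⟫ := by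
        have h1 := hH.low x e nt hxe
        rw [he1] at h1
        have h2 : ⟪H x wT, e⟫ = ‖wT‖ * ⟪H x e, e⟫ := by
          conv_lhs => rw [hwe, map_smul, inner_smul_left, RCLike.conj_to_real]
        rw [h2]
        nlinarith
      have e4 : κ * ‖wT‖ ≤ 9 / 2 * K * V ^ 2 * δ := by
        rw [e2] at e3
        have a1 := (abs_le.1 d3).2
        have a2 := (abs_le.1 d4).1
        linarith
      calc ‖wT‖ = κ * ‖wT‖ / κ := by field_simp
        _ ≤ 9 / 2 * K * V ^ 2 * δ / κ := by gcongr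
        _ = 9 / 2 * K / κ * V ^ 2 * δ := by ring
  have hfin : ‖w‖ ≤ ‖wT‖ + |n0| := by
    have : w = wT + n0 • x := by rw [hwT]; abel
    calc ‖w‖ = ‖wT + n0 • x‖ := by rw [← this]
      _ ≤ ‖wT‖ + ‖n0 • x‖ := norm_add_le _ _
      _ = ‖wT‖ + |n0| := by rw [norm_smul, nt, mul_one, Real.norm_eq_abs]
  calc ‖w‖ ≤ ‖wT‖ + |n0| := hfin
    _ ≤ 9 / 2 * K / κ * V ^ 2 * δ + V ^ 2 * δ := add_le_add hwTb hn0b
    _ = Cl κ K * d ^ 2 * δ := by rw [hV2]; unfold Cl; ring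

/-- Two opposite segments are not short. -/
theorem rho_lower (hH : Bd H κ K) {γ₁ γ₂ : ℝ → E3} {x y : E3} (h₁ : IsSegment H γ₁ y x)
    (h₂ : IsSegment H γ₂ y x) (hne : deriv γ₁ 0 ≠ 0) (hopp : deriv γ₂ 0 = -deriv γ₁ 0) :
    1 ≤ K * (Cl κ K * rho H y x) ^ 2 := by
  have h0 : (0 : ℝ) ∈ Set.Icc (0 : ℝ) 1 := ⟨le_rfl, by norm_num⟩
  have h1 : (1 : ℝ) ∈ Set.Icc (0 : ℝ) 1 := ⟨by norm_num, le_rfl⟩
  have hK0 := hH.K_nonneg
  have hCl := Cl_pos hH
  set d := rho H y x with hd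
  have hd0 : 0 ≤ d := rho_nonneg _ _ _
  -- first order expansion
  have hexp : ∀ γ : ℝ → E3, IsSegment H γ y x → ‖x - y - deriv γ 0‖ ≤ Cl κ K * d ^ 2 := by
    intro γ hγ
    have hf : ∀ t ∈ Set.Icc (0 : ℝ) 1, HasDerivAt (fun t => γ t - t • deriv γ 0)
        (deriv γ t - deriv γ 0) t := by
      intro t _
      have a1 : HasDerivAt γ (deriv γ t) t :=
        ((hγ.path.c1.differentiable one_ne_zero) t).hasDerivAt
      have a2 : HasDerivAt (fun t : ℝ => t • deriv γ 0) (deriv γ 0) t := by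
        simpa using (hasDerivAt_id t).smul_const (deriv γ 0)
      exact a1.sub a2
    have hb : ∀ t ∈ Set.Icc (0 : ℝ) 1, ‖deriv γ t - deriv γ 0‖ ≤ Cl κ K * d ^ 2 := by
      intro t ht
      refine (deriv_lip hH hγ h0 ht).trans ?_
      rw [sub_zero, abs_of_nonneg ht.1]
      have : 0 ≤ Cl κ K * d ^ 2 := by positivity
      nlinarith [ht.2]
    have := lip_of_bound hf hb h0 h1
    rw [hγ.path.start, hγ.path.finish, sub_zero, abs_one, mul_one, zero_smul, sub_zero,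
      one_smul] at this
    rw [show x - y - deriv γ 0 = x - deriv γ 0 - y by abel]
    exact this
  have e1 := hexp γ₁ h₁
  have e2 := hexp γ₂ h₂
  rw [hopp] at e2
  set v := deriv γ₁ 0 with hv
  have e3 : ‖v‖ ≤ Cl κ K * d ^ 2 := by
    have e4 : (2 : ℝ) • v = (x - y - -v) - (x - y - v) := by rw [two_smul]; abel
    have e5 : ‖(2 : ℝ) • v‖ ≤ Cl κ K * d ^ 2 + Cl κ K * d ^ 2 := by
      rw [e4]
      exact (norm_sub_le _ _).trans (add_le_add e2 e1)
    rw [norm_smul, Real.norm_eq_abs, abs_two] at e5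
    linarith
  have e6 := speed_ge hH h₁ h0
  rw [← hv, ← hd] at e6
  have e7 : ‖v‖ ^ 2 ≤ (Cl κ K * d ^ 2) ^ 2 := pow_le_pow_left₀ (norm_nonneg _) e3 2
  have hdpos : 0 < d := by
    have h3 := speed_le hH h₁ h0
    have h4 : 0 < ‖v‖ := norm_pos_iff.2 hne
    rw [← hv, ← hd] at h3
    have h5 : 0 < d / Real.sqrt κ := lt_of_lt_of_le h4 h3
    by_contra hc
    have h6 : d = 0 := le_antisymm (not_lt.1 hc) hd0
    rw [h6, zero_div] at h5
    exact lt_irrefl _ h5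
  have e8 : d ^ 2 ≤ K * (Cl κ K * d ^ 2) ^ 2 :=
    e6.trans (mul_le_mul_of_nonneg_left e7 hK0)
  have e9 : K * (Cl κ K * d ^ 2) ^ 2 = K * (Cl κ K * d) ^ 2 * d ^ 2 := by ring
  rw [e9] at e8
  have e10 : (1 : ℝ) * d ^ 2 ≤ K * (Cl κ K * d) ^ 2 * d ^ 2 := by linarith
  exact le_of_mul_le_mul_right e10 (by positivity)

end Pool.Agent.V7H34.NO
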