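import Mathlib
import Pool.Agent.V7H34.NO.Lip
import Pool.Agent.V7H34.NO.Arz
import Pool.Agent.V7H34.NO.Cut
import Pool.Agent.V11191.Opp.Upper

/-!
# Opposite segments pass to the limit of the metrics
-/

set_option autoImplicit false

open scoped RealInnerProductSpace Topology Interval ContDiff
open MeasureTheory Filter

namespace Pool.Agent.V7H34.NO

open Pool.Agent.V11191.Opp (E3 IsPath exists_dir arc_path gc gc_norm gc_deriv)

/-- two opposite segments between two different points -/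
def Opposite (H : E3 → E3 →L[ℝ] E3) : Prop :=
  ∃ x y : E3, ‖x‖ = 1 ∧ ‖y‖ = 1 ∧ x ≠ y ∧ ∃ γ₁ γ₂ : ℝ → E3, IsSegment H γ₁ y x ∧
    IsSegment H γ₂ y x ∧ deriv γ₁ 0 ≠ 0 ∧ deriv γ₂ 0 = -deriv γ₁ 0

theorem rho_upper {H : E3 → E3 →L[ℝ] E3} {κ K : ℝ} (hH : Bd H κ K) {x y : E3} (hx : ‖x‖ = 1)
    (hy : ‖y‖ = 1) : rho H y x ≤ Real.sqrt K * Real.pi := by
  obtain ⟨s, b, hs0, hsπ, hb, hyb, rfl⟩ := exists_dir hy hx
  refine (rho_le (arc_path hy hb hyb s)).trans ?_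
  unfold len
  have hK0 := hH.K_nonneg
  have hbd : ∀ t ∈ Ι (0 : ℝ) 1, ‖Real.sqrt ⟪H (gc y b (s * t)) (deriv (fun t => gc y b (s * t)) t),
      deriv (fun t => gc y b (s * t)) t⟫‖ ≤ Real.sqrt K * Real.pi := by
    intro t _
    have h1 : HasDerivAt (fun t : ℝ => s * t) s t := by
      simpa using (hasDerivAt_id t).const_mul s
    have h2 := (gc_deriv y b h1).deriv
    have h3 : ‖-(Real.sin (s * t)) • y + Real.cos (s * t) • b‖ = 1 := by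
      have h4 := gc_norm hy hb hyb (s * t + Real.pi / 2)
      rw [gc, Real.cos_add_pi_div_two, Real.sin_add_pi_div_two] at h4
      exact h4
    set v := deriv (fun t => gc y b (s * t)) t with hv
    have h5 : ‖v‖ ≤ Real.pi := by
      rw [h2, norm_smul, h3, mul_one, Real.norm_eq_abs s, abs_of_nonneg hs0]
      exact hsπ
    have h6 : ⟪H (gc y b (s * t)) v, v⟫ ≤ K * Real.pi ^ 2 := by
      refine (real_inner_le_norm _ _).trans ?_
      have h7 : ‖H (gc y b (s * t)) v‖ ≤ K * Real.pi :=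
        ((H _).le_opNorm _).trans (mul_le_mul (hH.up _ (gc_norm hy hb hyb _)) h5 (norm_nonneg _) hK0)
      calc _ ≤ K * Real.pi * Real.pi := mul_le_mul h7 h5 (norm_nonneg _) (by positivity)
        _ = K * Real.pi ^ 2 := by ring
    rw [Real.norm_eq_abs, abs_of_nonneg (Real.sqrt_nonneg _)]
    calc _ ≤ Real.sqrt (K * Real.pi ^ 2) := Real.sqrt_le_sqrt h6
      _ = Real.sqrt K * Real.pi := by rw [Real.sqrt_mul hK0, Real.sqrt_sq Real.pi_pos.le]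
  have := intervalIntegral.norm_integral_le_of_norm_le_const hbd
  rw [Real.norm_eq_abs, sub_zero, abs_one, mul_one] at this
  exact (le_abs_self _).trans this

theorem limit {H : E3 → E3 →L[ℝ] E3} {Hn : ℕ → E3 → E3 →L[ℝ] E3} {κ₀ K₀ κ K : ℝ}
    (hH : Bd H κ₀ K₀) (hHn : ∀ n, Bd (Hn n) κ K) {ε : ℕ → ℝ} (hε : Tendsto ε atTop (𝓝 0))
    (hconv : ∀ n, ∀ x : E3, ‖x‖ = 1 → ‖Hn n x - H x‖ ≤ ε n) (hO : ∀ n, Opposite (Hn n)) :
    Opposite H := by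
  choose xn yn hxn hyn hne γ₁ γ₂ h₁ h₂ hv hopp using hO
  have hK0 : 0 ≤ K := (hHn 0).K_nonneg
  have hκ := (hHn 0).κpos
  have hHc : Continuous H := hH.smooth.continuous
  have hHnc : ∀ n, Continuous (Hn n) := fun n => (hHn n).smooth.continuous
  have h0 : (0 : ℝ) ∈ Set.Icc (0 : ℝ) 1 := ⟨le_rfl, by norm_num⟩
  have h1 : (1 : ℝ) ∈ Set.Icc (0 : ℝ) 1 := ⟨by norm_num, le_rfl⟩
  set D := Real.sqrt K * Real.pi with hD
  have hD0 : 0 ≤ D := by positivity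
  have hdle : ∀ n, rho (Hn n) (yn n) (xn n) ≤ D := fun n => rho_upper (hHn n) (hxn n) (hyn n)
  have hCl : 0 ≤ Cl κ K := (Cl_pos (hHn 0)).le
  -- uniform bounds
  have bV : ∀ n, ∀ γ, IsSegment (Hn n) γ (yn n) (xn n) → ∀ t ∈ Set.Icc (0 : ℝ) 1,
      ‖deriv γ t‖ ≤ D / Real.sqrt κ := fun n γ hγ t ht =>
    (speed_le (hHn n) hγ ht).trans (div_le_div_of_nonneg_right (hdle n) (Real.sqrt_nonneg _))
  have bL : ∀ n, ∀ γ, IsSegment (Hn n) γ (yn n) (xn n) → ∀ s ∈ Set.Icc (0 : ℝ) 1,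
      ∀ t ∈ Set.Icc (0 : ℝ) 1, ‖deriv γ t - deriv γ s‖ ≤ Cl κ K * D ^ 2 * |t - s| :=
    fun n γ hγ s hs t ht => by
      refine (deriv_lip (hHn n) hγ hs ht).trans ?_
      have : rho (Hn n) (yn n) (xn n) ^ 2 ≤ D ^ 2 :=
        pow_le_pow_left₀ (rho_nonneg _ _ _) (hdle n) 2
      gcongr
  obtain ⟨s1, g₁, hs1, hg1, hlim1⟩ := arz γ₁ (fun n => (h₁ n).path.c1) (R := 1)
    (fun n => by rw [(h₁ n).path.start, hyn]) (fun n t ht => bV n _ (h₁ n) t ht)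
    (fun n s hs t ht => bL n _ (h₁ n) s hs t ht)
  obtain ⟨s2, g₂, hs2, hg2, hlim2⟩ := arz (fun n => γ₂ (s1 n)) (fun n => (h₂ (s1 n)).path.c1)
    (R := 1) (fun n => by rw [(h₂ (s1 n)).path.start, hyn])
    (fun n t ht => bV _ _ (h₂ (s1 n)) t ht) (fun n s hs t ht => bL _ _ (h₂ (s1 n)) s hs t ht)
  set s : ℕ → ℕ := fun n => s1 (s2 n) with hs
  have hsm : StrictMono s := hs1.comp hs2
  have L1 : ∀ t ∈ Set.Icc (0 : ℝ) 1, Tendsto (fun n => γ₁ (s n) t) atTop (𝓝 (g₁ t)) ∧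
      Tendsto (fun n => deriv (γ₁ (s n)) t) atTop (𝓝 (deriv g₁ t)) := fun t ht =>
    ⟨(hlim1 t ht).1.comp hs2.tendsto_atTop, (hlim1 t ht).2.comp hs2.tendsto_atTop⟩
  have L2 : ∀ t ∈ Set.Icc (0 : ℝ) 1, Tendsto (fun n => γ₂ (s n) t) atTop (𝓝 (g₂ t)) ∧
      Tendsto (fun n => deriv (γ₂ (s n)) t) atTop (𝓝 (deriv g₂ t)) := hlim2
  have hεs : Tendsto (fun n => ε (s n)) atTop (𝓝 0) := hε.comp hsm.tendsto_atTop
  have hconvs : ∀ n, ∀ x : E3, ‖x‖ = 1 → ‖Hn (s n) x - H x‖ ≤ ε (s n) := fun n => hconv (s n)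
  have hy : Tendsto (fun n => yn (s n)) atTop (𝓝 (g₁ 0)) :=
    ((L1 0 h0).1).congr fun n => (h₁ (s n)).path.start
  have hy2 : Tendsto (fun n => yn (s n)) atTop (𝓝 (g₂ 0)) :=
    ((L2 0 h0).1).congr fun n => (h₂ (s n)).path.start
  have hx : Tendsto (fun n => xn (s n)) atTop (𝓝 (g₁ 1)) :=
    ((L1 1 h1).1).congr fun n => (h₁ (s n)).path.finish
  have hx2 : Tendsto (fun n => xn (s n)) atTop (𝓝 (g₂ 1)) :=
    ((L2 1 h1).1).congr fun n => (h₂ (s n)).path.finish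
  have e0 : g₂ 0 = g₁ 0 := tendsto_nhds_unique hy2 hy
  have e1 : g₂ 1 = g₁ 1 := tendsto_nhds_unique hx2 hx
  set y := g₁ 0 with hyd
  set x := g₁ 1 with hxd
  -- the distances converge
  set d := Real.sqrt ⟪H (g₁ 0) (deriv g₁ 0), deriv g₁ 0⟫ with hd
  have sp : ∀ (γ : ℕ → ℝ → E3) (g : ℝ → E3), (∀ n, IsSegment (Hn n) (γ n) (yn n) (xn n)) →
      (∀ t ∈ Set.Icc (0 : ℝ) 1, Tendsto (fun n => γ (s n) t) atTop (𝓝 (g t)) ∧
      Tendsto (fun n => deriv (γ (s n)) t) atTop (𝓝 (deriv g t))) → ∀ t ∈ Set.Icc (0 : ℝ) 1,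
      Tendsto (fun n => rho (Hn (s n)) (yn (s n)) (xn (s n))) atTop
        (𝓝 (Real.sqrt ⟪H (g t) (deriv g t), deriv g t⟫)) := by
    intro γ g hγ hL t ht
    have := conv_form (Hn := fun n => Hn (s n)) hHc hεs hconvs (hL t ht).1
      (Eventually.of_forall fun n => path_norm (hγ (s n)).path ht) (hL t ht).2
    exact this.congr fun n => (hγ (s n)).speed t ht
  have hdlim := sp γ₁ g₁ h₁ L1 0 h0
  rw [← hyd] at hdlim
  have hd' : d = Real.sqrt ⟪H y (deriv g₁ 0), deriv g₁ 0⟫ := hd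
  rw [← hd'] at hdlim
  have speed1 : ∀ t ∈ Set.Icc (0 : ℝ) 1, Real.sqrt ⟪H (g₁ t) (deriv g₁ t), deriv g₁ t⟫ = d :=
    fun t ht => tendsto_nhds_unique (sp γ₁ g₁ h₁ L1 t ht) hdlim
  have speed2 : ∀ t ∈ Set.Icc (0 : ℝ) 1, Real.sqrt ⟪H (g₂ t) (deriv g₂ t), deriv g₂ t⟫ = d :=
    fun t ht => tendsto_nhds_unique (sp γ₂ g₂ h₂ L2 t ht) hdlim
  have hnorm : ∀ (γ : ℕ → ℝ → E3) (g : ℝ → E3), (∀ n, IsSegment (Hn n) (γ n) (yn n) (xn n)) →
      (∀ t ∈ Set.Icc (0 : ℝ) 1, Tendsto (fun n => γ (s n) t) atTop (𝓝 (g t)) ∧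
      Tendsto (fun n => deriv (γ (s n)) t) atTop (𝓝 (deriv g t))) → ∀ t ∈ Set.Icc (0 : ℝ) 1,
      ‖g t‖ = 1 := by
    intro γ g hγ hL t ht
    have a1 := (hL t ht).1.norm
    have a2 : Tendsto (fun n => ‖γ (s n) t‖) atTop (𝓝 1) := by
      refine tendsto_const_nhds.congr fun n => ?_
      rw [path_norm (hγ (s n)).path ht]
    exact tendsto_nhds_unique a1 a2
  have p1 : IsPath g₁ y x := ⟨hg1, fun t ht => by
    rw [mem_sphere_zero_iff_norm]; exact hnorm γ₁ g₁ h₁ L1 t ht, rfl, rfl⟩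
  have p2 : IsPath g₂ y x := ⟨hg2, fun t ht => by
    rw [mem_sphere_zero_iff_norm]; exact hnorm γ₂ g₂ h₂ L2 t ht, e0, e1⟩
  have hrho : rho H y x = d := by
    apply le_antisymm
    · refine (rho_le p1).trans (le_of_eq ?_)
      unfold len
      rw [intervalIntegral.integral_congr (g := fun _ => d)]
      · simp
      · intro t ht
        rw [Set.uIcc_of_le (by norm_num)] at ht
        exact speed1 t ht
    · refine le_csInf ⟨len H g₁, g₁, p1, rfl⟩ ?_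
      rintro L ⟨c, hc, rfl⟩
      exact cmp (Hn := fun n => Hn (s n)) hHc (fun n => hHnc _) hK0 (fun n => (hHn (s n)).up) hεs
        hconvs (fun n => hyn (s n)) (fun n => hxn (s n)) hy hx hdlim hc
  have hdpos : d ≠ 0 := by
    intro hd0
    have a1 : ∀ n, 1 ≤ K * (Cl κ K * rho (Hn (s n)) (yn (s n)) (xn (s n))) ^ 2 := fun n =>
      rho_lower (hHn (s n)) (h₁ (s n)) (h₂ (s n)) (hv (s n)) (hopp (s n))
    have a2 : Tendsto (fun n => K * (Cl κ K * rho (Hn (s n)) (yn (s n)) (xn (s n))) ^ 2) atTop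
        (𝓝 (K * (Cl κ K * d) ^ 2)) := ((hdlim.const_mul _).pow 2).const_mul _
    have a3 := ge_of_tendsto' a2 a1
    rw [hd0] at a3
    norm_num at a3
  refine ⟨x, y, ?_, ?_, ?_, g₁, g₂, ⟨p1, fun t ht => ?_⟩, ⟨p2, fun t ht => ?_⟩, ?_, ?_⟩
  · exact hnorm γ₁ g₁ h₁ L1 1 h1
  · exact hnorm γ₁ g₁ h₁ L1 0 h0
  · intro hxy
    apply hdpos
    rw [← hrho, hxy]
    refine le_antisymm ?_ (rho_nonneg _ _ _)
    have hc : IsPath (fun _ => y) y y := ⟨contDiff_const, fun t _ => by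
      rw [mem_sphere_zero_iff_norm]; exact hnorm γ₁ g₁ h₁ L1 0 h0, rfl, rfl⟩
    refine (rho_le hc).trans (le_of_eq ?_)
    unfold len
    simp
  · rw [speed1 t ht, hrho]
  · rw [speed2 t ht, hrho]
  · intro hz
    apply hdpos
    rw [hd', hz]
    simp
  · have a1 := (L2 0 h0).2
    have a2 := (L1 0 h0).2.neg
    refine tendsto_nhds_unique a1 (a2.congr fun n => ?_)
    rw [hopp]

end Pool.Agent.V7H34.NO
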